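import Pool.Agent.Run7.h615.WL.Log

/-!
# MP_f8720a_ag: Kato's log `ℓ`-adic monodromy-weight conjecture and the low degrees of the strata
-/

set_option autoImplicit false

universe u v

namespace Pool.Agent.Results.MP_f8720a_ag.LowDegreesOfStrata

open Pool.Agent.Y143 Pool.Agent.Helper60K9.KL Run7.h615.WL

/-- **Kato's log `ℓ`-adic monodromy-weight conjecture for SNCL schemes whose strata have simple
cohomology in low degrees, in any dimension.**

`X` is the Kummer log etale cohomology `H^m`, `m ≥ 0`, of a projective SNCL scheme of relative
dimension `n` over a log point whose residue field is finite with `q` elements (with coefficients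
in a field `Ω` containing `ℚ_ℓ`): the cohomology of the `Y^(a+1)` (disjoint union of the
intersections of `a + 1` different components), its restriction and Gysin maps, Poincare duality,
the hard Lefschetz theorem and the Weil conjectures for the smooth projective varieties `Y^(a+1)`,
and the weight spectral sequence, which degenerates at `E_2` and gives the filtration `P` (here
`X.W`) and the action of `N`. The hard Lefschetz theorem for the `H^m` is *not* assumed. `A` consists
of the classes of components and divisors, with their known positivity properties.

Let `m ≥ 0`, and suppose (`LowAt`) that for all `a ≥ 0` and `w ≥ 2` with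
`a + 1 + w ≤ min(m, 2 n - m)` (so `w < d = dim Y^(a+1) = n - a`, and `d ≥ 3`)

* `H^2(Y^(a+1))` is spanned by classes of divisors, if `w = 2`;
* `H^w(Y^(a+1)) = L H^(w-2)(Y^(a+1))`, if `w ≥ 3` (`L` is the class of an ample divisor),

in both cases up to classes with restriction zero to `Y^(a+2)` (or, more generally, a space `T` as in
`GeneratedBy`). Then

(1) if `m ≤ n`, the maps `N^e : gr^P_(m+e) H^m → gr^P_(m-e) H^m` are injective;

(2) if `m ≥ n`, the maps `N^e : gr^P_(m+e) H^m → gr^P_(m-e) H^m` are surjective;

(3) the conjecture is true for `H^m` (`KatoAt X m`: `P` is the monodromy filtration of `N`) if and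
only if the dimensions of `gr^P_(m+e) H^m` and `gr^P_(m-e) H^m` are equal for all `e`;

(4) the conjecture is true for the middle cohomology `H^n` (if the conditions hold for `m = n`).

There is no condition on the cohomology of the strata in the middle degree and on the strata of
dimension one and two. For example, the conditions hold for all `m` if the strata of dimension at
least three are complete intersections in projective spaces or blow-ups of such complete intersections
along complete intersections of codimension two. -/
theorem result {Ω : Type u} [Field Ω] [CharZero Ω] {Γ : Type} {n q : ℕ}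
    (X : SemistableModel.{u, v} Ω Γ n q) (A : DivisorClasses X.toSpecialFibre) (m : ℕ)
    (h : ∀ a w : ℕ, 2 ≤ w → a + 1 + w ≤ m → a + 1 + w + m ≤ 2 * n → LowAt A a w) :
    (m ≤ n → ∀ e, GrInj X m e) ∧ (n ≤ m → ∀ e, GrSurj X m e) ∧
      (KatoAt X m ↔ IsSymmetric X m) ∧ (m = n → KatoAt X m) :=
  low_degrees X A m h

end Pool.Agent.Results.MP_f8720a_ag.LowDegreesOfStrata
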