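import Pool.Agent.Run7.h307.WM2.Wf

/-!
# MP_f8720a_ag: Kato's log `ℓ`-adic monodromy-weight conjecture near a normal crossing fibre

Let `K` be a finite extension of `ℚ_p` (`p ≠ ℓ`), whose residue field has `q` elements, `B` a smooth
variety over `K`, `D = D_1 ∪ … ∪ D_r` a divisor with strict normal crossings on `B`, with `D_j` given by
`u_j = 0`, and `0 ∈ B(K)` a point of `D_1 ∩ … ∩ D_r`. Let `f : 𝒳 → B` be a projective family, smooth over
`B - D`, with unipotent local monodromy at `0` (for `r = 1` and `dim B = 1`, this is the case if the fibre
over `0` is a reduced divisor with strict normal crossings on the regular scheme `𝒳`).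

Choose a curve `C → B` through `0`, `u_j = (unit) u ^ (a_j)`, `a_j ≥ 1`, such that the family over `C` has a
semistable model, and let `Y` be the degenerate fibre of this model, a variety over `K`. Suppose that
the strata of `Y` (the intersections of its components, smooth projective varieties over `K`) satisfy
the weight-monodromy conjecture; only the cohomology groups in the degrees `m` with
`3 ≤ m ≤ 2 dim - 3` matter, since the others are known to be mw pure. For fibres of dimension three
this means the `H^3` of the components of `Y`, and it is enough that these are uniruled threefolds for
which `H^3` comes from curves, for example rationally connected (Bloch-Srinivas).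

Let `Z` be a projective SNCL scheme over a log point with finite residue field which is the special
fibre (with its log structure) of a projective strictly semistable model of a fibre `X_t`, or of a
smooth projective variety dominated by `X_t`, over the ring of integers of `K(t)`. Here `t` is a point
of `B - D` with values in a finite extension `K(t)` of `K`, close to `0`. Then Kato's conjecture holds
for `Z` in all degrees, unless the vector `(v(u_1(t)), …, v(u_r(t)))` of valuations lies in an
exceptional set `S`. It is contained in an algebraic hypersurface and it contains only finitely many
points of each ray in the open cone `v_j > 0`. (For `r = 1` it is finite; so there are no exceptions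
near `0`.)

In terms of log schemes only: if `𝒵` is a log scheme over the log point `(Spec k, ℕ^(1 + r))`, the special
fibre of a semistable family over `Spec O_K[[u_1, …, u_r]]`, then `Z` is the log scheme over the standard
log point obtained by pull-back with the map `ℕ^(1+r) → ℕ`, `(1, v_1, …, v_r)`; its monodromy operator
is `N_K + ∑ v_j N_j`, and its underlying scheme, strata and weight spectral sequence (after
subdivision) vary with `v`. So the conjecture is true for almost all `v` if it is true for the strata of
the degenerate fibre over `u = 0`, which have smaller dimension or a simpler degeneration.
-/

set_option autoImplicit false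

open Pool.Agent.Y143 Run7.h307.WM Run7.h307.WM2 Run7.h615.WL

namespace Pool.Agent.Results.MP_f8720a_ag.NearNormalCrossings

/-- **Kato's conjecture near a normal crossing fibre.** Let `X` be a projective family with `r`
parameters over the `p`-adic field `K`, with a degenerate fibre `Y` over `0` (for a curve in the base),
such that for all `a` and all `m` with `3 ≤ m ≤ 2 dim Y^(a+1) - 3` the cohomology `H^m(Y^(a+1))` is mw
pure of weight `m`, or a direct factor of a twist of a mw pure representation (`h`).

Then there is a set `S` of exceptional vectors of valuations, contained in the zero set of a nonzero
polynomial, and with finitely many points on each ray of the open cone, such that for all `t` with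
`v(u(t)) ∉ S` the following holds in all degrees `m`. Let `Z` be (the Kummer log etale cohomology `H^m` of)
a projective SNCL scheme over a log point whose residue field has `q ^ deg t` elements, such that
`H^m(Z)` is a direct summand of `H^m(X_t)`, with the Frobenius and the monodromy operator (for example
the special fibre of a projective strictly semistable model over the ring of integers of `K(t)` of a
variety dominated by `X_t`). Then the weight filtration `P` on `H^m(Z)` is the monodromy filtration of
`N` (`Z.Kato m`). -/
theorem result {Ω : Type} [Field Ω] [CharZero Ω] [IsAlgClosed Ω] {n q r : ℕ} (hq : 1 < q)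
    (X : PolyFamily Ω n q r) (h : X.StrataPure) :
    ∃ S : Set (Fin r → ℚ),
      (∃ P : MvPolynomial (Fin r) ℚ, P ≠ 0 ∧ ∀ c ∈ S, MvPolynomial.eval c P = 0) ∧
      (∀ b : Fin r → ℕ, (∀ j, 0 < b j) → {s : ℚ | (fun j => s * b j) ∈ S}.Finite) ∧
      ∀ t : X.fibres.Point, 0 < X.fibres.deg t → X.fibres.valuation t ∉ S →
        ∀ (m : ℕ) (Z : LogCohomology Ω (q ^ X.fibres.deg t)),
        IsDirectSummand Z.F Z.N (X.fibres.frob t m) (X.fibres.mon t m) → Z.Kato m := by
  obtain ⟨S, hP, hray, hS⟩ := main hq X h
  refine ⟨S, hP, hray, fun t hd ht m Z hZ => ?_⟩
  have := Z.finite
  exact isMonodromyFiltration_of_pure (Nat.one_lt_pow hd.ne' hq) Z.isWeight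
    (isMWPure_of_retract hZ Z.nilpotent (hS t ht m))

end Pool.Agent.Results.MP_f8720a_ag.NearNormalCrossings
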