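import Pool.Agent.Run7.h615.WS.Low

/-!
# MP_f8720a_ag: Kato's log `ℓ`-adic monodromy-weight conjecture for SNCL schemes with fibred
components and simple Frobenius spectrum
-/

set_option autoImplicit false

universe u v

namespace Pool.Agent.Results.MP_f8720a_ag.SimpleSpectrum

open Pool.Agent.Y143 Pool.Agent.Helper60K9.KL Run7.h615.WL Run7.h615.WS

/-- **Kato's log `ℓ`-adic monodromy-weight conjecture for SNCL schemes with fibred components and
simple Frobenius spectrum, in any dimension.**

`X` is the Kummer log etale cohomology `H^m`, `m ≥ 0`, of a projective SNCL scheme of relative
dimension `n` over a log point whose residue field is finite with `q` elements (with coefficients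
in an algebraically closed field `Ω` containing `ℚ_ℓ`): the cohomology of the `Y^(a+1)` (disjoint
union of the intersections of `a + 1` different components), its restriction and Gysin maps,
Poincare duality, the hard Lefschetz theorem and the Weil conjectures for the smooth projective
varieties `Y^(a+1)`, and the weight spectral sequence, which degenerates at `E_2` and gives the
filtration `P` (here `X.W`) and the action of `N`. The hard Lefschetz theorem for the `H^m` is
*not* assumed; it is not known, since the SNCL scheme need not be the special fibre of a semistable
family. `A` consists of the classes of components and divisors, with their known positivity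
properties.

Let `m ≥ 0`. `Y^(a+1)`, of dimension `n - a`, is the disjoint union of the intersections of `a + 1`
different components of the special fibre (the scheme); let `Y_i` (`i : I`) be the components of
`Y^(a+1)` and `D_j` (`j : J`) the components of `Y^(a+2)`, defined over the residue field. Suppose
that for all `a ≥ 0` and `w ≥ 2` with `a + 1 + w ≤ min(m, 2 n - m)` (for a threefold this is `a =
0`, `w = 2` only) the following condition (`FibredAt`) is true. The cohomology `H^w(Y^(a+1))` is
generated by

* the classes of divisors, if `w = 2`, and the multiples of the class `L` of an ample divisor, if
  `w ≥ 3`;
* classes with restriction zero to `Y^(a+2)`;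
* for each `i`, a space `T i` of classes on `Y_i` which comes from a smooth projective variety
  `S_i` of dimension `w`, the base of a fibration of `Y_i` (or of a covering of `Y_i`): the
  restriction from `T i` to `D_j` multiplies the intersection form `form i` of `S_i` by the degree
  `deg i j ≥ 0` of `D_j ∩ L^(d-1-w)` over `S_i` (`d = n - a`), and it is zero if this degree is
  zero.

Moreover, for each link, that is a `D_j` which is mapped onto `S_i` for at least two of the `Y_i`
which contain it, the Frobenius has simple spectrum on the transcendental part of `H^w(D_j)`: the
generalized eigenspaces in the classes orthogonal to the classes of divisors (for `w = 2`), or to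
the multiples of `L` (for `w ≥ 3`), have dimension at most one; this is only necessary for the
eigenvalues `α` which occur on `T i` for two of these `i`.

Then

(1) if `m ≤ n`, the maps `N^e : gr^P_(m+e) H^m → gr^P_(m-e) H^m` are injective;

(2) if `m ≥ n`, the maps `N^e : gr^P_(m+e) H^m → gr^P_(m-e) H^m` are surjective;

(3) the conjecture is true for `H^m` (`KatoAt X m`: `P` is the monodromy filtration of `N`) if and
only if the dimensions of `gr^P_(m+e) H^m` and `gr^P_(m-e) H^m` are equal for all `e`;

(4) the conjecture is true for the middle cohomology `H^n` (if the conditions hold for `m = n`).

For threefolds the condition is satisfied if all components `Y_i` of the special fibre are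
uniruled, or have no transcendental cycles, and the Frobenius on the transcendental part of the
second cohomology of the double surfaces has no multiple eigenvalue: if `P → Y_i` is a dominant map
of degree `e` and `P` has a fibration over a surface `S` whose general fibre is a rational curve,
with image `C` in `Y_i`, then `H^2(Y_i)` is the direct sum of the classes of divisors and the space
`T i` of the classes `x` whose pull-back to `P` is the pull-back of a class `x_S` on `S` which is
orthogonal to the classes of curves, `form i x y = (x_S . y_S) / e` and `deg i j = D_j . C`. There
is no condition on the dual complex, on the geometric genus of the double surfaces or on `H^3`, and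
the Tate conjecture is not assumed. In dimension `n ≥ 4` an example is a chain or a cycle of
projective line bundles over smooth complete intersections `S_i` of dimension `n - 1`, glued along
sections, such that the Frobenius has simple spectrum on the primitive cohomology of the `S_i`, if
all strata of dimension at least three are complete intersections, or blow-ups of complete
intersections along complete intersections of codimension two.

The fields of the structures are known facts: `SemistableModel` is the cohomology of the strata and
the weight spectral sequence; `DivisorClasses` has the Hodge index theorem and Weil's positivity;
the composites of the restrictions `T i → H^w(D_j)` and their transposes `H^w(D_j) → T i'` are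
given by algebraic correspondences, so together with powers of the Frobenius they have rational
traces (`HasRationalTraces`). -/
theorem result {Ω : Type u} [Field Ω] [CharZero Ω] [IsAlgClosed Ω] {Γ : Type} {n q : ℕ}
    (X : SemistableModel.{u, v} Ω Γ n q) (A : DivisorClasses X.toSpecialFibre) (m : ℕ)
    (h : ∀ a w : ℕ, 2 ≤ w → a + 1 + w ≤ m → a + 1 + w + m ≤ 2 * n → FibredAt A a w) :
    (m ≤ n → ∀ e, GrInj X m e) ∧ (n ≤ m → ∀ e, GrSurj X m e) ∧
      (KatoAt X m ↔ IsSymmetric X m) ∧ (m = n → KatoAt X m) :=
  low_of_fibred X A m h

end Pool.Agent.Results.MP_f8720a_ag.SimpleSpectrum
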