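import Pool.Agent.Run7.h615.WM.LogThree
import Pool.Agent.Run7.h615.WM.IntDefs

/-!
# MP_f8720a_ag: Kato's log `ℓ`-adic monodromy-weight conjecture for threefolds with uniruled components
-/

set_option autoImplicit false

universe u v

namespace Pool.Agent.Results.MP_f8720a_ag.UniruledReduction

open Pool.Agent.Y143 Pool.Agent.X302.MW Pool.Agent.Helper60K9.KL Run7.h615.WM
open scoped NNReal

/-- **Kato's log `ℓ`-adic monodromy-weight conjecture for SNCL threefolds with uniruled components
whose links form a forest.**

`X` is the Kummer log etale cohomology `H^m`, `m ≥ 0`, of a projective SNCL scheme of relative
dimension three over a log point whose residue field is finite with `q` elements (with coefficients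
in an algebraically closed field `Ω` containing `ℚ_ℓ`): the cohomology of the `Y^(a+1)` (disjoint union
of the intersections of `a + 1` different components), its restriction and Gysin maps, Poincare
duality, the hard Lefschetz theorem and the Weil conjectures for the smooth projective varieties
`Y^(a+1)`, and the weight spectral sequence, which degenerates at `E_2` and gives the filtration `P`
(here `X.W`) and the action of `N`. The hard Lefschetz theorem for the `H^m` is *not* assumed; it is
not known, since the SNCL scheme need not be the special fibre of a semistable family. `A` consists
of the classes of components and divisors, with their known positivity properties.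

Let `Y_i` (`i : I`) be the components of the scheme and `D_j` (`j : J`) the double surfaces. Suppose that

(1) the `Y_i` satisfy the Tate conjecture for divisors (`hT`);

(2) on the non-Tate part of `H^2(Y_i)` (the Frobenius eigenvalues which are not of the form `q ζ` with
a root of unity `ζ`), the forms `x|D_j . y|D_j` given by the double surfaces `D_j` in `Y_i` are
multiples `deg i j * form i x y`, with `deg i j` a natural number, of one nondegenerate form, and the
restriction to `D_j` is zero if `deg i j = 0` (`F`);

(3) for each non-Tate `α`, the graph whose vertices are the components and whose edges are the links
(the `D_j` with `deg i j ≠ 0` and `α` an eigenvalue on `H^2(Y_i)`, for both components `Y_i` which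
contain `D_j`) is a forest, with an orientation such that for each link `D_j` the geometric genus of
`D_j` is at most one or `α` has the same multiplicity in `H^2(D_j)` and in `H^2` of the component
above `D_j` (`hF`).

Then Kato's conjecture is true for `H^m` (`KatoAt X m`: `P` is the monodromy filtration of `N`) for all
`m` different from two and four, in particular for the middle cohomology `H^3`. For `m = 2` and
`m = 4` (and hence for all `m`) it is true if and only if the classes in `H^1` of the double surfaces do
not obstruct it: a class in `H^1(Y^(2))` with restriction zero to `Y^(3)` whose Gysin image in `H^3` of
the components is primitive has Gysin image zero (`PrimGysin`; for example, if `H^1` of the double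
surfaces or `H^3` of the components vanishes).

Condition (2) is satisfied if each `Y_i` has one of the following properties: `H^2(Y_i)` has no
non-Tate part; `Y_i` is uniruled (`deg i j` is the intersection number of `D_j` with the general
rational curve `C` of a covering family, parametrized by a surface `S`, and `(L . C) * form i x y =
x . y . L` for an ample `L`; this is because non-Tate classes on `Y_i` come from classes on `S`); the
Picard number of `Y_i` is one; `Y_i` is fibred over a curve in K3 surfaces and the `D_j` in `Y_i` are
fibres or have no non-Tate classes.

The other hypotheses are known. `hI`: the Frobenius eigenvalues on the strata are algebraic integers.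
`hR`: the characteristic polynomials of the Frobenius on `H^2(Y_i)` and `H^2(D_j)` are rational. `hS`:
for a `p`-adic valuation `w`, Manin's integrality of the Newton polygons of the Frobenius on
`H^2(Y_i)` and on `H^2(D_j)`, and the Newton polygon of `H^2(D_j)` lies above the Hodge polygon; `pg j`
is the geometric genus of `D_j`. -/
theorem result {Ω : Type u} [Field Ω] [CharZero Ω] [IsAlgClosed Ω] {Γ : Type} {q : ℕ}
    (hq : IsPrimePow q) (X : SemistableModel.{u, v} Ω Γ 3 q) (A : DivisorClasses X.toSpecialFibre)
    (hI : HasIntegralFrobenius X.toSpecialFibre) (hT : A.TateConj 0) {I J : Type} [Fintype I]
    [Fintype J] (D : Components X.toSpecialFibre I J) (hR : D.IsRational) (w : Valuation Ω ℝ≥0)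
    (pg : J → ℕ) (hS : HasSlopes D w pg) (F : ProportionalForms D)
    (hF : ∀ α : Ω, ¬ IsTateNumber q α → F.IsForest pg α) :
    (∀ m : ℕ, m ≠ 2 → m ≠ 4 → KatoAt X m) ∧
      ((∀ m : ℕ, KatoAt X m) ↔ PrimGysin X.toSpecialFibre 0) := by
  have h := divCrit_forest X.toSpecialFibre rfl hq A hI hT D hR F w pg hS hF
  exact ⟨kato_odd X A h, fun h' => (katoAt_two A).1 (h' 2), kato_all X A h⟩

end Pool.Agent.Results.MP_f8720a_ag.UniruledReduction
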